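import Pool.Agent.V11198.SixteenX
import Pool.Agent.Results.MP_0c3aa4_co.FewOddParts

/-!
# MP_22fc46_co: Hists with few inner vertices and odd outer cycles

Let `T` be a Hist of the cubic graph `G`.  The edges outside `T` form a 2-regular subgraph `S` whose
circuits are the outer cycles, and `G - E(S) = T` is connected.  The graph `G / S` has the inner
vertices of `T` and one vertex for every outer cycle.  If at most sixteen of them have odd degree
and `G` has no nontrivial edge cut with three edges, then `G / S` has a nowhere-zero 4-flow or is
contractible to the Petersen graph in a way that gives a nontrivial cut with three edges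
(theorem `main16` of the starting library), and `G` has a cycle double cover with all outer cycles.
-/

set_option autoImplicit false

open Finset

namespace Pool.Agent.Results.MP_22fc46_co.FewInnerVertices

open Pool.Agent.Helper347.Sab
open Pool.Agent.Results.MP_0c3aa4_co.ThroughDominating (TwoRegular IsCycleDoubleCover)
open Pool.Agent.Results.MP_0c3aa4_co.FewOddParts (Linked parts NoThreeCut)

variable {V E : Type} [Fintype V] [DecidableEq V] [Fintype E] [DecidableEq E]

/-- `T` is the edge set of a Hist: a spanning tree (connected and spanning, with one edge less than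
there are vertices) without vertices of degree 2. -/
def IsHist (G : MGraph V E) (T : Finset E) : Prop :=
  (∀ a b, Linked G T a b) ∧ T.card + 1 = Fintype.card V ∧ ∀ v, dg G T v ≠ 2

/-- The outer cycles: the circuits of `G` without edges of `T`. -/
def IsOuterCycle (G : MGraph V E) (T C : Finset E) : Prop := IsCircuit G C ∧ Disjoint C T

/-- Let `G` be a cubic graph in which every edge lies in a circuit and no edge cut with three edges
has at least two vertices on both sides (for instance, a snark), and let `T` be a Hist of `G`.
Suppose that at most sixteen components of the graph `(V(G), E(G) - E(T))` have an odd number of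
vertices: the number of inner vertices of `T` plus the number of odd outer cycles is at most
sixteen. Then `G` has a cycle double cover in which each outer cycle appears. -/
theorem result {V E : Type} [Fintype V] [DecidableEq V] [Fintype E] [DecidableEq E]
    (G : MGraph V E) (hG : IsCubic G) (hb : ∀ e, ∃ D, IsCircuit G D ∧ e ∈ D)
    (h3 : NoThreeCut G) (T : Finset E) (hT : IsHist G T)
    (h16 : {X | X ∈ parts G (univ \ T) ∧ Odd X.ncard}.ncard ≤ 16) :
    ∃ F : Finset (Finset E), IsCycleDoubleCover G F ∧ ∀ C, IsOuterCycle G T C → C ∈ F := by
  classical
  obtain ⟨hconn, hcard, hdeg⟩ := hT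
  have hd : ∀ v, dg G (univ \ T) v + dg G T v = 3 := by
    intro v
    rw [← hG v]
    exact dg_sdiff (subset_univ _) v
  have hS : TwoRegular G (univ \ T) := by
    intro v
    have h1 := hd v
    have h2 := hdeg v
    have h4 : dg G T v ≠ 0 := by
      intro h0
      obtain ⟨e, _, he⟩ := exists_mem_of_dg_pos (G := G) (X := univ) (v := v)
        (by rw [hG v]; norm_num)
      obtain ⟨a, b, hab, hends⟩ := exists_ends G e
      have h5 : ∃ x, x ≠ v := by
        by_cases h : a = v
        · exact ⟨b, fun h' => hab (h.trans h'.symm)⟩
        · exact ⟨a, h⟩
      obtain ⟨x, hx⟩ := h5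
      rcases Relation.ReflTransGen.cases_head (hconn v x) with h | ⟨y, ⟨f, hf, hfe⟩, _⟩
      · exact hx h.symm
      · have := dg_pos_of_mem (G := G) hf (v := v) (by rw [hfe]; exact Sym2.mem_mk_left _ _)
        omega
    omega
  have hne : (univ \ T).Nonempty := by
    rw [nonempty_iff_ne_empty]
    intro h
    have h1 : T = univ := by
      apply eq_univ_of_forall
      intro e
      by_contra he
      have : e ∈ (univ \ T) := mem_sdiff.2 ⟨mem_univ _, he⟩
      rw [h] at this
      exact absurd this (notMem_empty e)
    have h2 : ∑ v, dg G univ v = 2 * (univ : Finset E).card :=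
      Pool.Agent.V11198.Six.sum_dg G univ
    rw [sum_congr rfl fun v _ => hG v, sum_const, card_univ, card_univ, smul_eq_mul] at h2
    rw [h1, card_univ] at hcard
    omega
  have hconn' : ∀ a b, Linked G (univ \ (univ \ T)) a b := by
    rw [sdiff_sdiff_right_self]
    simpa using hconn
  obtain ⟨_, _, _, h4⟩ :=
    Pool.Agent.Results.MP_0c3aa4_co.FewOddParts.result G hG hb (univ \ T) hS hconn'
  obtain ⟨F, hF, hF'⟩ := (h4 hne h3 h16).1
  refine ⟨F, hF, fun C hC => hF' C hC.1 fun e he => mem_sdiff.2 ⟨mem_univ _, fun heT => ?_⟩⟩
  exact (Finset.disjoint_left.1 hC.2) he heT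

end Pool.Agent.Results.MP_22fc46_co.FewInnerVertices
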